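import Pool.Agent.Work.MP_12f267_ag.Final
import Pool.Agent.Work.MP_12f267_ag.Small

/-!
# MP_12f267_ag : Amitsur's conjecture for good periods

Let `A`, `B` be central simple algebras of the same degree `n` over a field `F` which generate the
same subgroup of the Brauer group.  Let `m` be `n`, or any positive integer with `m [A] = 0` (for
example the period of `A`).  Assume that every prime power `q` exactly dividing `m` is good: each
integer prime to `q` is congruent to `± 2 ^ j` modulo `q`.  Then the Brauer-Severi varieties of `A`
and `B` are birational over `F`.

Every positive `m ≤ 30` except `8, 16, 17, 24` satisfies the condition (`goodPeriod_small` in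
`Pool/Agent/Work/MP_12f267_ag/Small.lean`).

All definitions are in `Pool/Agent/Work/MP_12f267_ag/Statement.lean`.
-/

namespace Pool.Agent.Work.MP_12f267_ag.GoodPeriods

open Pool.Agent.MP12f267

universe u

theorem goodPeriods (F A B : Type u) [Field F]
    [Ring A] [Algebra F A] [Algebra.IsCentral F A] [IsSimpleRing A] [FiniteDimensional F A]
    [Ring B] [Algebra F B] [Algebra.IsCentral F B] [IsSimpleRing B] [FiniteDimensional F B]
    (n m : ℕ) (hm0 : 0 < m) (hm : m = n ∨ IsBrauerMultiple F A F m) (hgood : GoodPeriod m)
    (hA : Module.finrank F A = n ^ 2) (hB : Module.finrank F B = n ^ 2)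
    (hAB : SameSubgroup F A B) : Birational F A B :=
  theoremP F A B n m hm0 hm hgood hA hB hAB

end Pool.Agent.Work.MP_12f267_ag.GoodPeriods
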